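import Pool.Agent.H55.DU.LocB

/-!
# MALLE ALL CLASSES (MP_b39724), chapter DU: the index of `PS` in `K^*`
-/

set_option autoImplicit false

open scoped NumberField
open IsDedekindDomain

noncomputable section

namespace H55.DU

open H63.MA

variable {K : Type} [Field K] [NumberField K] {p : ℕ} {ζ : K}

/-- the exponent of `v` in `p` -/
def ev (p : ℕ) (v : Pl K) : ℕ :=
  (Associates.mk v.asIdeal).count (Associates.mk (Ideal.span {((p : ℕ) : 𝓞 K)} : Ideal (𝓞 K))).factors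

theorem cast_ne (hp : p.Prime) : ((p : ℕ) : 𝓞 K) ≠ 0 := by exact_mod_cast hp.ne_zero

theorem ev_val (hp : p.Prime) (v : Pl K) : v.valuation K (p : K) = WithZero.exp (-(ev p v : ℤ)) := by
  have h1 : (p : K) = algebraMap (𝓞 K) K (p : 𝓞 K) := (map_natCast _ p).symm
  rw [h1, HeightOneSpectrum.valuation_of_algebraMap, v.intValuation_if_neg (cast_ne hp)]
  rfl

theorem ev_zero (hp : p.Prime) {v : Pl K} (hv : ¬ Above p v) : ev p v = 0 := by
  have h1 := (above_iff p v).not.1 hv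
  rw [ev_val hp v, ← WithZero.exp_zero, WithZero.exp_lt_exp] at h1
  omega

/-- the product formula for `p` -/
theorem ev_prod (hp : p.Prime) (S0 : Finset (Pl K)) (hS : ∀ v : Pl K, Above p v → v ∈ S0) :
    ∏ v ∈ S0, nm v ^ ev p v = p ^ Module.finrank ℚ K := by
  classical
  have hI : (Ideal.span {((p : ℕ) : 𝓞 K)} : Ideal (𝓞 K)) ≠ 0 := by
    rw [Ne, Ideal.zero_eq_bot, Ideal.span_singleton_eq_bot]
    exact cast_ne hp
  have h1 := Ideal.finprod_heightOneSpectrum_factorization hI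
  rw [finprod_eq_prod_of_mulSupport_subset (s := S0) _ (by
    intro v hv
    rw [Function.mem_mulSupport] at hv
    rw [Finset.mem_coe]
    apply hS
    by_contra h
    apply hv
    show v.asIdeal ^ ev p v = 1
    rw [ev_zero hp h, pow_zero])] at h1
  have h2 := congrArg Ideal.absNorm h1
  rw [map_prod, Ideal.absNorm_span_natCast, NumberField.RingOfIntegers.rank] at h2
  rw [← h2]
  refine Finset.prod_congr rfl fun v _ => ?_
  show nm v ^ ev p v = Ideal.absNorm (v.asIdeal ^ ev p v)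
  rw [map_pow]
  rfl

/-- the index of `PS` -/
theorem ps_index (hp : p.Prime) (hp2 : MOne p K) (hζ : IsPrimitiveRoot ζ p) (S0 : Finset (Pl K))
    (hS : ∀ v, Above p v → v ∈ S0) :
    (RMkA_G hp hp2 hζ S0).index ≠ 0 ∧
      (RMkA_G hp hp2 hζ S0).index ≤ p ^ (2 * S0.card + Module.finrank ℚ K) := by
  classical
  have hloc : ∀ v : Pl K, ∃ (n : ℕ) (f : Kˣ → Fin n), n ≤ p ^ 2 * nm v ^ ev p v ∧
      ∀ x y, f x = f y → (Above p v → LocP p v (x⁻¹ * y)) ∧ (¬ Above p v → Spl p ζ v (x⁻¹ * y)) := by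
    intro v
    by_cases hv : Above p v
    · obtain ⟨n, f, h1, h2⟩ := loc_above hp hζ v (ev_val hp v)
      exact ⟨n, f, h1, fun x y hxy => ⟨fun _ => h2 x y hxy, fun h => absurd hv h⟩⟩
    · obtain ⟨n, f, h1, h2⟩ := loc_spl hp hζ hv
      refine ⟨n, f, ?_, fun x y hxy => ⟨fun h => absurd h hv, fun _ => h2 x y hxy⟩⟩
      rw [ev_zero hp hv, pow_zero, mul_one]
      exact h1
  choose n f hn hf using hloc
  have h1 := index_le (RMkA_G hp hp2 hζ S0) (fun x => fun v : S0 => f v.1 x) (by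
    intro x y hxy
    refine ⟨fun v hv => ?_, fun v hv ha => ?_⟩
    · exact (hf v x y (congrFun hxy ⟨v, hS v hv⟩)).1 hv
    · exact (hf v x y (congrFun hxy ⟨v, hv⟩)).2 ha)
  refine ⟨h1.1, h1.2.trans ?_⟩
  rw [Nat.card_pi]
  have h2 : ∏ v : S0, Nat.card (Fin (n v.1)) = ∏ v ∈ S0, n v := by
    rw [← Finset.prod_coe_sort S0 n]
    exact Finset.prod_congr rfl fun v _ => Nat.card_fin _
  rw [h2]
  calc ∏ v ∈ S0, n v ≤ ∏ v ∈ S0, (p ^ 2 * nm v ^ ev p v) := Finset.prod_le_prod' fun v _ => hn v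
    _ = p ^ (2 * S0.card + Module.finrank ℚ K) := by
        rw [Finset.prod_mul_distrib, Finset.prod_const, ev_prod hp S0 hS, ← pow_mul, ← pow_add]

end H55.DU
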