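import Pool.Agent.H63.MA.RMkA
import Pool.Agent.H63.MA.Scal

/-!
# MALLE ALL CLASSES (MP_b39724), chapter DU: `p`-torsion of `(𝓞 / v^(2 e + 1))ˣ` at `v ∣ p`
-/

set_option autoImplicit false

open scoped NumberField
open IsDedekindDomain

noncomputable section

namespace H55.DU

open H63.MA

variable {K : Type} [Field K] [NumberField K] {p : ℕ} {ζ : K}

theorem pow_sub_prod (hp : p.Prime) (hζ : IsPrimitiveRoot ζ p) (y : K) :
    y ^ p - 1 = ∏ k ∈ Finset.range p, (y - ζ ^ k) := by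
  classical
  have h1 := Polynomial.X_pow_sub_one_eq_prod hp.pos hζ
  have h2 : Polynomial.nthRootsFinset p (1 : K) = (Finset.range p).image (fun k => ζ ^ k) := by
    symm
    apply Finset.eq_of_subset_of_card_le
    · intro z hz
      obtain ⟨k, -, rfl⟩ := Finset.mem_image.1 hz
      rw [Polynomial.mem_nthRootsFinset hp.pos, ← pow_mul, mul_comm, pow_mul, hζ.pow_eq_one, one_pow]
    · rw [Finset.card_image_of_injOn (by
        intro a ha b hb hab
        exact hζ.pow_inj (Finset.mem_range.1 (Finset.mem_coe.1 ha)) (Finset.mem_range.1 (Finset.mem_coe.1 hb)) hab),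
        Finset.card_range, hζ.card_nthRootsFinset]
  have h3 := congrArg (Polynomial.eval y) h1
  rw [Polynomial.eval_sub, Polynomial.eval_pow, Polynomial.eval_X, Polynomial.eval_one, Polynomial.eval_prod, h2] at h3
  rw [h3, Finset.prod_image (by
    intro a ha b hb hab
    exact hζ.pow_inj (Finset.mem_range.1 (Finset.mem_coe.1 ha)) (Finset.mem_range.1 (Finset.mem_coe.1 hb)) hab)]
  refine Finset.prod_congr rfl fun k _ => ?_
  rw [Polynomial.eval_sub, Polynomial.eval_X, Polynomial.eval_C]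

theorem near_one (hp : p.Prime) (hζ : IsPrimitiveRoot ζ p) (v : Pl K) (x : K)
    (h : ∀ j < p, v.valuation K (x - 1) ≤ v.valuation K (x - ζ ^ j)) :
    v.valuation K (x - 1) * v.valuation K (p : K) ≤ v.valuation K (x ^ p - 1) := by
  obtain ⟨n, hn⟩ : ∃ n, p = n + 1 := ⟨p - 1, by have := hp.pos; omega⟩
  rw [pow_sub_prod hp hζ x]
  subst hn
  rw [Finset.prod_range_succ', pow_zero, mul_comm, map_mul]
  refine mul_le_mul_left ?_ _
  have h1 := hζ.prod_one_sub_pow_eq_order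
  have h2 : ((n + 1 : ℕ) : K) = ∏ k ∈ Finset.range n, (1 - ζ ^ (k + 1)) := by
    rw [h1]; push_cast; ring
  rw [h2, map_prod, map_prod]
  refine Finset.prod_le_prod' fun k hk => ?_
  have hk' := Finset.mem_range.1 hk
  have e1 : (1 : K) - ζ ^ (k + 1) = (x - ζ ^ (k + 1)) - (x - 1) := by ring
  rw [e1]
  exact (Valuation.map_sub _ _ _).trans (max_le le_rfl (h (k + 1) (by omega)))

/-- the nearest root of unity -/
theorem near_root (hp : p.Prime) (hζ : IsPrimitiveRoot ζ p) (v : Pl K) (x : K) :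
    ∃ k : ℕ, k < p ∧ v.valuation K (x - ζ ^ k) * v.valuation K (p : K) ≤ v.valuation K (x ^ p - 1) := by
  obtain ⟨k0, hk0, hmin⟩ := Finset.exists_min_image (Finset.range p) (fun k => v.valuation K (x - ζ ^ k))
    ⟨0, Finset.mem_range.2 hp.pos⟩
  rw [Finset.mem_range] at hk0
  refine ⟨k0, hk0, ?_⟩
  have hζv : ∀ n : ℕ, v.valuation K (ζ ^ n) = 1 := by
    intro n
    rw [map_pow]
    have h1 : (v.valuation K ζ) ^ p = 1 := by rw [← map_pow, hζ.pow_eq_one, map_one]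
    have h2 : v.valuation K ζ = 1 := by
      rcases lt_trichotomy (v.valuation K ζ) 1 with h | h | h
      · exact absurd h1 (pow_lt_one₀ zero_le h hp.ne_zero).ne
      · exact h
      · exact absurd h1 (one_lt_pow₀ h hp.ne_zero).ne'
    rw [h2, one_pow]
  have hone : ζ ^ (p - k0) * ζ ^ k0 = 1 := by
    rw [← pow_add, Nat.sub_add_cancel hk0.le, hζ.pow_eq_one]
  have key : ∀ j : ℕ, v.valuation K (x * ζ ^ (p - k0) - ζ ^ j) = v.valuation K (x - ζ ^ (j + k0)) := by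
    intro j
    have e1 : x - ζ ^ (j + k0) = (x * ζ ^ (p - k0) - ζ ^ j) * ζ ^ k0 := by
      rw [sub_mul, mul_assoc, hone, mul_one, pow_add]
    rw [e1, map_mul, hζv, mul_one]
  have h0 := key 0
  rw [pow_zero, zero_add] at h0
  have h1 := near_one hp hζ v (x * ζ ^ (p - k0)) (fun j hj => by
    rw [h0, key j]
    have e2 : ζ ^ (j + k0) = ζ ^ ((j + k0) % p) := by
      conv_lhs => rw [← Nat.div_add_mod (j + k0) p, pow_add, pow_mul, hζ.pow_eq_one, one_pow, one_mul]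
    rw [e2]
    exact hmin _ (Finset.mem_range.2 (Nat.mod_lt _ hp.pos)))
  rw [h0] at h1
  have e3 : (x * ζ ^ (p - k0)) ^ p = x ^ p := by
    rw [mul_pow, ← pow_mul, mul_comm (p - k0) p, pow_mul, hζ.pow_eq_one, one_pow, mul_one]
  rwa [e3] at h1

theorem card_quot (v : Pl K) (n : ℕ) : Nat.card (𝓞 K ⧸ v.asIdeal ^ n) = nm v ^ n := by
  have h1 : Ideal.absNorm (v.asIdeal ^ n) = nm v ^ n := by rw [map_pow]; rfl
  rw [← h1, Ideal.absNorm_apply, Submodule.cardQuot_apply]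

/-- the number of the elements of `v^m / v^n` -/
theorem card_map (v : Pl K) {m n : ℕ} (h : m ≤ n) :
    Nat.card ((v.asIdeal ^ m).map (Ideal.Quotient.mk (v.asIdeal ^ n))) = nm v ^ (n - m) := by
  have hle : v.asIdeal ^ n ≤ v.asIdeal ^ m := Ideal.pow_le_pow_right h
  have h1 := Submodule.card_eq_card_quotient_mul_card ((v.asIdeal ^ m).map (Ideal.Quotient.mk (v.asIdeal ^ n)))
  have h2 := Nat.card_congr (DoubleQuot.quotQuotEquivQuotOfLE hle).toEquiv
  have hpos : 0 < nm v := lt_trans zero_lt_one (one_lt_nm v)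
  rw [h2, card_quot, card_quot] at h1
  have h3 : nm v ^ n = nm v ^ m * nm v ^ (n - m) := by rw [← pow_add, Nat.add_sub_cancel' h]
  rw [h3] at h1
  exact (Nat.eq_of_mul_eq_mul_left (pow_pos hpos m) (by linarith)).symm

/-- the `p`-torsion of the residue units -/
theorem card_tors (hp : p.Prime) (hζ : IsPrimitiveRoot ζ p) (v : Pl K) {e : ℕ}
    (he : v.valuation K (p : K) = WithZero.exp (-(e : ℤ))) :
    Nat.card (MonoidHom.ker (powMonoidHom p : (𝓞 K ⧸ v.asIdeal ^ (2 * e + 1))ˣ →* (𝓞 K ⧸ v.asIdeal ^ (2 * e + 1))ˣ))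
      ≤ p * nm v ^ e := by
  classical
  have hfin : Finite (𝓞 K ⧸ v.asIdeal ^ (2 * e + 1)) :=
    Ideal.finiteQuotientOfFreeOfNeBot _ (pow_ne_zero _ v.ne_bot)
  have hint : IsIntegral ℤ ζ := hζ.isIntegral hp.pos
  obtain ⟨z, hz⟩ : ∃ z : 𝓞 K, algebraMap (𝓞 K) K z = ζ := ⟨⟨ζ, hint⟩, rfl⟩
  have hex : ∀ a : MonoidHom.ker (powMonoidHom p : (𝓞 K ⧸ v.asIdeal ^ (2 * e + 1))ˣ →*
      (𝓞 K ⧸ v.asIdeal ^ (2 * e + 1))ˣ), ∃ k : Fin p,
      ((a : (𝓞 K ⧸ v.asIdeal ^ (2 * e + 1))ˣ) : 𝓞 K ⧸ v.asIdeal ^ (2 * e + 1)) -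
        Ideal.Quotient.mk _ (z ^ (k : ℕ)) ∈ (v.asIdeal ^ (e + 1)).map (Ideal.Quotient.mk (v.asIdeal ^ (2 * e + 1))) := by
    intro a
    obtain ⟨x, hx⟩ := Ideal.Quotient.mk_surjective
      ((a : (𝓞 K ⧸ v.asIdeal ^ (2 * e + 1))ˣ) : 𝓞 K ⧸ v.asIdeal ^ (2 * e + 1))
    have h1 : (a : (𝓞 K ⧸ v.asIdeal ^ (2 * e + 1))ˣ) ^ p = 1 := a.2
    have h2 : Ideal.Quotient.mk (v.asIdeal ^ (2 * e + 1)) (x ^ p - 1) = 0 := by
      rw [map_sub, map_pow, map_one, hx, ← Units.val_pow_eq_pow_val, h1, Units.val_one, sub_self]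
    rw [Ideal.Quotient.eq_zero_iff_mem, ← HeightOneSpectrum.intValuation_le_pow_iff_mem] at h2
    have h3 : v.valuation K ((algebraMap (𝓞 K) K x) ^ p - 1) ≤ WithZero.exp (-((2 * e + 1 : ℕ) : ℤ)) := by
      rw [← map_pow, ← map_one (algebraMap (𝓞 K) K), ← map_sub, HeightOneSpectrum.valuation_of_algebraMap]
      exact h2
    obtain ⟨k, hk, hk2⟩ := near_root hp hζ v (algebraMap (𝓞 K) K x)
    refine ⟨⟨k, hk⟩, ?_⟩
    rw [← hx, ← map_sub]
    apply Ideal.mem_map_of_mem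
    rw [← HeightOneSpectrum.intValuation_le_pow_iff_mem, ← HeightOneSpectrum.valuation_of_algebraMap (K := K)]
    show v.valuation K (algebraMap (𝓞 K) K (x - z ^ k)) ≤ _
    rw [map_sub, map_pow, hz]
    have h4 := hk2.trans h3
    rw [he] at h4
    have h5 : (WithZero.exp (-((e + 1 : ℕ) : ℤ)) : WithZero (Multiplicative ℤ)) =
        WithZero.exp (-((2 * e + 1 : ℕ) : ℤ)) * WithZero.exp (e : ℤ) := by
      rw [← WithZero.exp_add]
      congr 1
      push_cast
      ring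
    rw [h5]
    calc v.valuation K (algebraMap (𝓞 K) K x - ζ ^ k)
        = v.valuation K (algebraMap (𝓞 K) K x - ζ ^ k) * WithZero.exp (-(e : ℤ)) * WithZero.exp (e : ℤ) := by
          rw [mul_assoc, ← WithZero.exp_add, neg_add_cancel, WithZero.exp_zero, mul_one]
      _ ≤ _ := by gcongr
  choose κ hκ using hex
  let F : MonoidHom.ker (powMonoidHom p : (𝓞 K ⧸ v.asIdeal ^ (2 * e + 1))ˣ →* (𝓞 K ⧸ v.asIdeal ^ (2 * e + 1))ˣ) →
      Fin p × ((v.asIdeal ^ (e + 1)).map (Ideal.Quotient.mk (v.asIdeal ^ (2 * e + 1)))) :=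
    fun a => (κ a, ⟨_, hκ a⟩)
  have hF : Function.Injective F := by
    intro a b hab
    have h1 : κ a = κ b := congrArg Prod.fst hab
    have h2 := congrArg (fun y => ((Prod.snd y : ((v.asIdeal ^ (e + 1)).map (Ideal.Quotient.mk (v.asIdeal ^ (2 * e + 1))))) :
      𝓞 K ⧸ v.asIdeal ^ (2 * e + 1))) hab
    simp only [F] at h2
    rw [h1] at h2
    apply Subtype.ext
    apply Units.ext
    exact sub_left_inj.1 h2
  have h6 := Nat.card_le_card_of_injective F hF
  rw [Nat.card_prod, Nat.card_fin, card_map v (by omega : e + 1 ≤ 2 * e + 1)] at h6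
  have h7 : 2 * e + 1 - (e + 1) = e := by omega
  rwa [h7] at h6

end H55.DU
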