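import Pool.Agent.H55.DU.LocA

/-!
# MALLE ALL CLASSES (MP_b39724), chapter DU: the index of the local `p`-th powers
-/

set_option autoImplicit false

open scoped NumberField
open IsDedekindDomain

noncomputable section

namespace H55.DU

open H63.MA

/-- index from a separating map -/
theorem index_le {G X : Type*} [Group G] [Finite X] (H : Subgroup G) (f : G → X)
    (h : ∀ x y, f x = f y → x⁻¹ * y ∈ H) : H.index ≠ 0 ∧ H.index ≤ Nat.card X := by
  have hinj : Function.Injective (fun q : G ⧸ H => f q.out) := by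
    intro q q' hqq
    have h1 := h _ _ hqq
    rw [← QuotientGroup.eq, QuotientGroup.out_eq', QuotientGroup.out_eq'] at h1
    exact h1
  have hfin : Finite (G ⧸ H) := Finite.of_injective _ hinj
  refine ⟨?_, Nat.card_le_card_of_injective _ hinj⟩
  exact Subgroup.FiniteIndex.index_ne_zero (self := Subgroup.finiteIndex_of_finite_quotient)

theorem card_coker {A : Type*} [CommGroup A] [Finite A] (p : ℕ) :
    Nat.card (A ⧸ (powMonoidHom p : A →* A).range) = Nat.card (powMonoidHom p : A →* A).ker := by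
  have h1 := Subgroup.card_mul_index (powMonoidHom p : A →* A).ker
  have h2 := Subgroup.card_mul_index (powMonoidHom p : A →* A).range
  rw [Subgroup.index_ker] at h1
  have h3 : 0 < Nat.card (powMonoidHom p : A →* A).range := Nat.card_pos
  have h4 : Nat.card (powMonoidHom p : A →* A).range * (powMonoidHom p : A →* A).range.index
      = Nat.card (powMonoidHom p : A →* A).range * Nat.card (powMonoidHom p : A →* A).ker := by
    rw [h2, ← h1, mul_comm]
  exact Nat.eq_of_mul_eq_mul_left h3 h4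

variable {K : Type} [Field K] [NumberField K] {p : ℕ} {ζ : K}

theorem val_unit (v : Pl K) {u : Kˣ} (hu : ord v u = 0) (N : ℕ) :
    ∃ a b : 𝓞 K, v.valuation K (algebraMap (𝓞 K) K a - u) ≤ WithZero.exp (-(N : ℤ)) ∧
      a * b - 1 ∈ v.asIdeal ^ N := by
  have h1 : v.valuation K (u : K) = 1 := (ord_eq_zero_iff v u).1 hu
  have h2 : v.valuation K ((u⁻¹ : Kˣ) : K) = 1 := (ord_eq_zero_iff v u⁻¹).1 (by rw [ord_inv, hu, neg_zero])
  obtain ⟨a, ha⟩ := RMkA_loc v N (u : K) h1.le
  obtain ⟨b, hb⟩ := RMkA_loc v N ((u⁻¹ : Kˣ) : K) h2.le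
  refine ⟨a, b, ha, ?_⟩
  rw [← HeightOneSpectrum.intValuation_le_pow_iff_mem, ← HeightOneSpectrum.valuation_of_algebraMap (K := K)]
  show v.valuation K (algebraMap (𝓞 K) K (a * b - 1)) ≤ _
  rw [map_sub, map_mul, map_one]
  have e1 : algebraMap (𝓞 K) K a * algebraMap (𝓞 K) K b - 1 =
      (algebraMap (𝓞 K) K a - u) * algebraMap (𝓞 K) K b + u * (algebraMap (𝓞 K) K b - ((u⁻¹ : Kˣ) : K)) := by
    have : (u : K) * ((u⁻¹ : Kˣ) : K) = 1 := by rw [Units.val_inv_eq_inv_val, mul_inv_cancel₀ u.ne_zero]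
    linear_combination this
  rw [e1]
  refine (Valuation.map_add _ _ _).trans (max_le ?_ ?_)
  · rw [map_mul]
    calc v.valuation K (algebraMap (𝓞 K) K a - u) * v.valuation K (algebraMap (𝓞 K) K b)
        ≤ WithZero.exp (-(N : ℤ)) * 1 := mul_le_mul' ha (v.valuation_le_one b)
      _ = _ := mul_one _
  · rw [map_mul, h1, one_mul]
    exact hb

theorem mem_lt {v : Pl K} {N : ℕ} {z : 𝓞 K} (h : z ∈ v.asIdeal ^ N) :
    v.valuation K (algebraMap (𝓞 K) K z) ≤ WithZero.exp (-(N : ℤ)) := by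
  rw [HeightOneSpectrum.valuation_of_algebraMap, HeightOneSpectrum.intValuation_le_pow_iff_mem]
  exact h

/-- places above `p` -/
theorem loc_above (hp : p.Prime) (hζ : IsPrimitiveRoot ζ p) (v : Pl K) {e : ℕ}
    (he : v.valuation K (p : K) = WithZero.exp (-(e : ℤ))) :
    ∃ (n : ℕ) (f : Kˣ → Fin n), n ≤ p ^ 2 * nm v ^ e ∧ ∀ x y, f x = f y → LocP p v (x⁻¹ * y) := by
  classical
  have : NeZero p := ⟨hp.ne_zero⟩
  have hfin : Finite (𝓞 K ⧸ v.asIdeal ^ (2 * e + 1)) :=
    Ideal.finiteQuotientOfFreeOfNeBot _ (pow_ne_zero _ v.ne_bot)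
  obtain ⟨π, hπ⟩ := exists_unif v
  have hu : ∀ x : Kˣ, ord v (x * π ^ (-ord v x)) = 0 := by
    intro x
    rw [ord_mul, ord_zpow, hπ]
    ring
  choose a b ha hab using fun x : Kˣ => val_unit v (hu x) (2 * e + 1)
  have hmk : ∀ x, Ideal.Quotient.mk (v.asIdeal ^ (2 * e + 1)) (a x) *
      Ideal.Quotient.mk (v.asIdeal ^ (2 * e + 1)) (b x) = 1 := by
    intro x
    have h1 := Ideal.Quotient.eq_zero_iff_mem.2 (hab x)
    rw [map_sub, map_mul, map_one] at h1
    exact sub_eq_zero.1 h1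
  let g : Kˣ → (𝓞 K ⧸ v.asIdeal ^ (2 * e + 1))ˣ := fun x =>
    ⟨Ideal.Quotient.mk _ (a x), Ideal.Quotient.mk _ (b x), hmk x, (mul_comm _ _).trans (hmk x)⟩
  let A := (𝓞 K ⧸ v.asIdeal ^ (2 * e + 1))ˣ
  let X := ZMod p × (A ⧸ (powMonoidHom p : A →* A).range)
  let f0 : Kˣ → X := fun x => ((ord v x : ZMod p), QuotientGroup.mk (g x))
  have hX : Finite X := inferInstance
  refine ⟨Nat.card X, fun x => Finite.equivFin X (f0 x), ?_, fun x y hxy => ?_⟩
  · have h1 : Nat.card X = p * Nat.card (A ⧸ (powMonoidHom p : A →* A).range) := by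
      show Nat.card (ZMod p × _) = _
      rw [Nat.card_prod, Nat.card_zmod]
    rw [h1, card_coker, sq, mul_assoc]
    exact Nat.mul_le_mul_left p (card_tors hp hζ v he)
  · have h1 : f0 x = f0 y := (Finite.equivFin X).injective hxy
    have h2 : (ord v x : ZMod p) = (ord v y : ZMod p) := congrArg Prod.fst h1
    have h3 : (QuotientGroup.mk (g x) : A ⧸ (powMonoidHom p : A →* A).range) = QuotientGroup.mk (g y) :=
      congrArg Prod.snd h1
    rw [ZMod.intCast_eq_intCast_iff_dvd_sub] at h2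
    obtain ⟨k, hk⟩ := h2
    rw [QuotientGroup.eq] at h3
    obtain ⟨c, hc⟩ := h3
    have hc' : g y = g x * c ^ p := by
      have : c ^ p = (g x)⁻¹ * g y := hc
      rw [this, mul_inv_cancel_left]
    obtain ⟨d, hd⟩ := Ideal.Quotient.mk_surjective (c : 𝓞 K ⧸ v.asIdeal ^ (2 * e + 1))
    obtain ⟨d', hd'⟩ := Ideal.Quotient.mk_surjective ((c⁻¹ : (𝓞 K ⧸ v.asIdeal ^ (2 * e + 1))ˣ) :
      𝓞 K ⧸ v.asIdeal ^ (2 * e + 1))
    have h4 : d * d' - 1 ∈ v.asIdeal ^ (2 * e + 1) := by
      rw [← Ideal.Quotient.eq_zero_iff_mem, map_sub, map_mul, map_one, hd, hd', Units.mul_inv, sub_self]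
    have h5 : a y - a x * d ^ p ∈ v.asIdeal ^ (2 * e + 1) := by
      rw [← Ideal.Quotient.eq_zero_iff_mem, map_sub, map_mul, map_pow, hd]
      have := congrArg (Units.val) hc'
      rw [Units.val_mul, Units.val_pow_eq_pow_val] at this
      rw [sub_eq_zero]
      exact this
    have hN : (WithZero.exp (-((2 * e + 1 : ℕ) : ℤ)) : WithZero (Multiplicative ℤ)) < v.valuation K ((p : K) ^ 2) := by
      rw [map_pow, he, ← WithZero.exp_nsmul, WithZero.exp_lt_exp]
      simp only [nsmul_eq_mul]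
      push_cast
      linarith
    have hN1 : (WithZero.exp (-((2 * e + 1 : ℕ) : ℤ)) : WithZero (Multiplicative ℤ)) < 1 := by
      rw [← WithZero.exp_zero, WithZero.exp_lt_exp]
      push_cast
      omega
    -- `d` is a unit at `v`
    have hdv : v.valuation K (algebraMap (𝓞 K) K d) = 1 := by
      apply le_antisymm (v.valuation_le_one d)
      by_contra hcon
      push Not at hcon
      have e1 := mem_lt (K := K) h4
      rw [map_sub, map_mul, map_one] at e1
      have e2 : v.valuation K (algebraMap (𝓞 K) K d * algebraMap (𝓞 K) K d') < 1 := by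
        rw [map_mul]
        calc v.valuation K (algebraMap (𝓞 K) K d) * v.valuation K (algebraMap (𝓞 K) K d')
            ≤ v.valuation K (algebraMap (𝓞 K) K d) * 1 := mul_le_mul' le_rfl (v.valuation_le_one d')
          _ < 1 := by rw [mul_one]; exact hcon
      have e3 : (1 : K) = algebraMap (𝓞 K) K d * algebraMap (𝓞 K) K d' -
          (algebraMap (𝓞 K) K d * algebraMap (𝓞 K) K d' - 1) := by ring
      have e4 : v.valuation K (1 : K) < 1 := by
        rw [e3]
        exact lt_of_le_of_lt (Valuation.map_sub _ _ _) (max_lt e2 (lt_of_le_of_lt e1 hN1))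
      rw [map_one] at e4
      exact lt_irrefl _ e4
    have hd0 : algebraMap (𝓞 K) K d ≠ 0 := by
      intro h0
      rw [h0, map_zero] at hdv
      exact zero_ne_one hdv
    obtain ⟨D, hD⟩ : ∃ D : Kˣ, (D : K) = algebraMap (𝓞 K) K d := ⟨Units.mk0 _ hd0, rfl⟩
    set ux : Kˣ := x * π ^ (-ord v x) with hux
    set uy : Kˣ := y * π ^ (-ord v y) with huy
    have hux1 : v.valuation K (ux : K) = 1 := (ord_eq_zero_iff v ux).1 (hu x)
    -- the main estimate
    have h6 : v.valuation K ((uy : K) - ux * (D : K) ^ p) ≤ WithZero.exp (-((2 * e + 1 : ℕ) : ℤ)) := by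
      have e1 : (uy : K) - ux * (D : K) ^ p = (algebraMap (𝓞 K) K (a x) - ux) * (D : K) ^ p -
          ((algebraMap (𝓞 K) K (a y) - uy) - algebraMap (𝓞 K) K (a y - a x * d ^ p)) := by
        rw [map_sub, map_mul, map_pow, ← hD]
        ring
      rw [e1]
      refine (Valuation.map_sub _ _ _).trans (max_le ?_ ((Valuation.map_sub _ _ _).trans (max_le (ha y) (mem_lt h5))))
      rw [map_mul, map_pow, hD, hdv, one_pow, mul_one]
      exact ha x
    refine ⟨D * π ^ k, ?_⟩
    have h7 : x⁻¹ * y * ((D * π ^ k) ^ p)⁻¹ = ux⁻¹ * uy * (D ^ p)⁻¹ := by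
      have e2 : ord v y = ord v x + p * k := by linarith
      have e3 : y = uy * π ^ (ord v x) * (π ^ k) ^ p := by
        rw [huy, mul_assoc, mul_assoc, ← zpow_natCast (π ^ k) p, ← zpow_mul, ← zpow_add, ← zpow_add]
        have : -ord v y + (ord v x + k * (p : ℤ)) = 0 := by rw [e2]; ring
        rw [this, zpow_zero, mul_one]
      have e4 : x = ux * π ^ (ord v x) := by
        rw [hux, mul_assoc, ← zpow_add, neg_add_cancel, zpow_zero, mul_one]
      have aux : ∀ a b s t w : Kˣ, (a * s)⁻¹ * (b * s * t) * (w * t)⁻¹ = a⁻¹ * b * w⁻¹ := by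
        intro a b s t w
        rw [mul_inv, mul_inv]
        have : a⁻¹ * s⁻¹ * (b * s * t) * (w⁻¹ * t⁻¹) = a⁻¹ * b * w⁻¹ * (s⁻¹ * s) * (t * t⁻¹) := by
          simp only [mul_assoc, mul_comm, mul_left_comm]
        rw [this, inv_mul_cancel, mul_inv_cancel, mul_one, mul_one]
      have e5 := aux ux uy (π ^ (ord v x)) ((π ^ k) ^ p) (D ^ p)
      rw [← e3, ← e4] at e5
      rw [mul_pow]
      exact e5
    rw [h7]
    have h8 : ((ux⁻¹ * uy * (D ^ p)⁻¹ : Kˣ) : K) - 1 = ((uy : K) - ux * (D : K) ^ p) * ((ux : K)⁻¹ * ((D : K) ^ p)⁻¹) := by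
      rw [Units.val_mul, Units.val_mul, Units.val_inv_eq_inv_val, Units.val_inv_eq_inv_val, Units.val_pow_eq_pow_val]
      have f1 := ux.ne_zero
      have f2 := D.ne_zero
      field_simp
    rw [h8, map_mul, map_mul, map_inv₀, map_inv₀, map_pow, hux1, hD, hdv, one_pow, inv_one, mul_one, mul_one]
    rw [hD] at h6
    exact lt_of_le_of_lt h6 hN

/-- places not above `p` -/
theorem loc_spl (hp : p.Prime) (hζ : IsPrimitiveRoot ζ p) {v : Pl K} (hv : ¬ Above p v) :
    ∃ (n : ℕ) (f : Kˣ → Fin n), n ≤ p ^ 2 ∧ ∀ x y, f x = f y → Spl p ζ v (x⁻¹ * y) := by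
  classical
  have : NeZero p := ⟨hp.ne_zero⟩
  obtain ⟨π, hπ⟩ := exists_unif v
  have hu : ∀ x : Kˣ, ord v (x * π ^ (-ord v x)) = 0 := by
    intro x
    rw [ord_mul, ord_zpow, hπ]
    ring
  let X := ZMod p × ZMod p
  let f0 : Kˣ → X := fun x => ((ord v x : ZMod p), lg p ζ v (x * π ^ (-ord v x)))
  have hX : Finite X := inferInstance
  refine ⟨Nat.card X, fun x => Finite.equivFin X (f0 x), ?_, fun x y hxy z => ?_⟩
  · show Nat.card (ZMod p × ZMod p) ≤ _
    rw [Nat.card_prod, Nat.card_zmod, sq]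
  · have h1 : f0 x = f0 y := (Finite.equivFin X).injective hxy
    have h2 : (ord v x : ZMod p) = (ord v y : ZMod p) := congrArg Prod.fst h1
    have h3 : lg p ζ v (x * π ^ (-ord v x)) = lg p ζ v (y * π ^ (-ord v y)) := congrArg Prod.snd h1
    have h4 : ∀ w : Kˣ, B p ζ v w z = (ord v z : ZMod p) * lg p ζ v (w * π ^ (-ord v w))
        + (ord v w : ZMod p) * B p ζ v π z := by
      intro w
      have e1 : w = (w * π ^ (-ord v w)) * π ^ (ord v w) := by
        rw [mul_assoc, ← zpow_add, neg_add_cancel, zpow_zero, mul_one]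
      conv_lhs => rw [e1]
      rw [B_mul_left hp hζ hv, B_zpow_left hp hζ hv, B_unit hp hζ hv (hu w)]
    rw [B_mul_left hp hζ hv, B_inv_left hp hζ hv, h4 x, h4 y, h2, h3]
    ring

end H55.DU
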