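import Pool.Agent.H55.DU.Par

/-!
# MALLE ALL CLASSES (MP_b39724), chapter DU: duality between the `S`-units and `K^* / U PS`

`du`: if `b ∈ K^*` is orthogonal to all `S0`-units then `b` is an `S0`-unit times an element of `PS`.
-/

set_option autoImplicit false

open scoped NumberField
open IsDedekindDomain

noncomputable section

namespace H55.DU

open H63.MA

variable {K : Type} [Field K] [NumberField K] {p : ℕ} {ζ : K}

theorem pow_unit {S : Finset (Pl K)} (hp : p.Prime) {u y : Kˣ} (hu : TUnit S u) (hy : y ^ p = u) : TUnit S y := by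
  intro v hv
  have h1 := hu v hv
  rw [← hy, ord_pow] at h1
  rcases mul_eq_zero.1 h1 with h2 | h2
  · exact absurd (by exact_mod_cast h2) hp.ne_zero
  · exact h2

/-- `[U : U^p] ≤ [K^* : orth]` -/
theorem unit_le_orth (hp : p.Prime) (hζ : IsPrimitiveRoot ζ p) (D : RD0 K p ζ) {lam : Pl K → ZMod p}
    (hone : ∀ v, D.Gd v → lam v = 1) (hS : (orth D lam).index ≠ 0) :
    (powMonoidHom p : UT D.S0 →* UT D.S0).range.index ≠ 0 ∧
      (powMonoidHom p : UT D.S0 →* UT D.S0).range.index ≤ (orth D lam).index := by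
  classical
  have hfi : (orth D lam).FiniteIndex := ⟨hS⟩
  have hfin : Finite (Kˣ ⧸ orth D lam) := Subgroup.finite_quotient_of_finiteIndex
  let Y := Additive (Kˣ ⧸ orth D lam)
  have hY : ∀ y : Y, p • y = 0 := by
    intro y
    obtain ⟨x, hx⟩ := QuotientGroup.mk_surjective (Additive.toMul y)
    have h1 : (QuotientGroup.mk (x ^ p) : Kˣ ⧸ orth D lam) = 1 := by
      rw [QuotientGroup.eq_one_iff]
      intro u _
      have h2 : ∀ n : ℕ, PP D lam (x ^ n) u = n * PP D lam x u := by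
        intro n
        induction n with
        | zero => rw [pow_zero, PP_one_left, Nat.cast_zero, zero_mul]
        | succ n ih => rw [pow_succ, PP_mul_left, ih]; push_cast; ring
      rw [h2 p, ZMod.natCast_self, zero_mul]
    have h2 : y = Additive.ofMul (QuotientGroup.mk x) := by rw [hx]; rfl
    rw [h2]
    exact congrArg Additive.ofMul h1
  have hfY : Finite Y := hfin
  obtain ⟨hd1, hd2⟩ := card_dual (Y := Y) hp hY
  -- the functional of a unit
  let F0 : UT D.S0 → (Kˣ ⧸ orth D lam →* Multiplicative (ZMod p)) := fun u =>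
    QuotientGroup.lift (orth D lam)
      { toFun := fun b => Multiplicative.ofAdd (PP D lam b u.1)
        map_one' := by rw [PP_one_left]; rfl
        map_mul' := fun a b => by rw [PP_mul_left]; rfl }
      (fun b hb => congrArg Multiplicative.ofAdd (hb u.1 u.2))
  let F : UT D.S0 → (Y →+ ZMod p) := fun u => MonoidHom.toAdditiveLeft (F0 u)
  have hF : ∀ (u : UT D.S0) (b : Kˣ), F u (Additive.ofMul (QuotientGroup.mk b)) = PP D lam b u.1 := fun u b => rfl
  have h1 := index_le (powMonoidHom p : UT D.S0 →* UT D.S0).range F (by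
    intro x y hxy
    have h2 : ∀ b, PP D lam b (x.1⁻¹ * y.1) = 0 := by
      intro b
      rw [PP_mul_right hp hζ, PP_inv_right hp hζ, ← hF x b, ← hF y b, hxy]
      ring
    obtain ⟨z, hz⟩ := PP_non hp hζ D hone h2
    exact ⟨⟨z, pow_unit hp (x⁻¹ * y).2 hz⟩, Subtype.ext hz⟩)
  exact ⟨h1.1, h1.2.trans hd2⟩

/-- the main counting argument -/
theorem du_all (hp : p.Prime) (hp3 : p ≠ 2) (hζ : IsPrimitiveRoot ζ p) (D : RD0 K p ζ) {lam : Pl K → ZMod p}
    (hlam : IsRec p ζ lam) (hone : ∀ v, D.Gd v → lam v = 1) :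
    orth D lam = UT D.S0 ⊔ RMkA_G hp (mone_odd hp hp3 K) hζ D.S0 ∧
      (powMonoidHom p : UT D.S0 →* UT D.S0).range.index = p ^ (D.S0.card + NumberField.Units.rank K + 1) ∧
      (orth D lam).index = p ^ (D.S0.card + NumberField.Units.rank K + 1) := by
  classical
  set P : Subgroup Kˣ := RMkA_G hp (mone_odd hp hp3 K) hζ D.S0 with hPdef
  set g : ℕ := D.S0.card + NumberField.Units.rank K + 1 with hg
  obtain ⟨hi0, hi⟩ := ps_index hp (mone_odd hp hp3 K) hζ D.S0 D.above
  have hle : UT D.S0 ⊔ P ≤ orth D lam := by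
    apply sup_le
    · intro b hb u _
      exact PP_unit_left D lam hb u
    · intro b hb u hu
      exact PP_ps hp hζ D hlam hb hu
  have h1 : P.relIndex (UT D.S0 ⊔ P) * (UT D.S0 ⊔ P).index = P.index := Subgroup.relIndex_mul_index le_sup_right
  rw [Subgroup.relIndex_sup_right] at h1
  have h2 : P.relIndex (UT D.S0) = (powMonoidHom p : UT D.S0 →* UT D.S0).range.index := by
    show (P.subgroupOf (UT D.S0)).index = _
    congr 1
    ext u
    rw [Subgroup.mem_subgroupOf]
    constructor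
    · intro hu
      obtain ⟨z, hz⟩ := D.unit u.1 u.2 hu
      exact ⟨⟨z, pow_unit hp u.2 hz⟩, Subtype.ext hz⟩
    · rintro ⟨z, rfl⟩
      exact RMkA_pow hp (mone_odd hp hp3 K) hζ D.S0 z.1
  rw [h2] at h1
  have hP0 : P.index ≠ 0 := hi0
  have hU0 : (powMonoidHom p : UT D.S0 →* UT D.S0).range.index ≠ 0 := by
    intro h0; rw [h0, zero_mul] at h1; exact hP0 h1.symm
  have hH0 : (UT D.S0 ⊔ P).index ≠ 0 := by
    intro h0; rw [h0, mul_zero] at h1; exact hP0 h1.symm
  have h3 := Subgroup.relIndex_mul_index hle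
  have hS0 : (orth D lam).index ≠ 0 := by
    intro h0; rw [h0, mul_zero] at h3; exact hH0 h3.symm
  obtain ⟨-, h4⟩ := unit_le_orth hp hζ D hone hS0
  have h5 := unt_index hp hζ D.S0 hU0
  have hgg : NumberField.Units.rank K + D.S0.card + 1 = g := by rw [hg]; ring
  rw [hgg] at h5
  have hi' : P.index ≤ p ^ g * p ^ g := by
    rw [← pow_add]
    refine hi.trans (le_of_eq ?_)
    rw [deg_eq hp hp3 hζ]
    congr 1
    rw [hg]; ring
  have hpg : 0 < p ^ g := pow_pos hp.pos g
  set a := (powMonoidHom p : UT D.S0 →* UT D.S0).range.index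
  set b := (UT D.S0 ⊔ P).index
  set s := (orth D lam).index
  set m := (UT D.S0 ⊔ P).relIndex (orth D lam)
  have hm0 : 0 < m := Nat.pos_of_ne_zero (by intro h0; rw [h0, zero_mul] at h3; exact hH0 h3.symm)
  have hb : b ≤ p ^ g := by
    by_contra hcon
    push Not at hcon
    have : p ^ g * p ^ g < a * b := by nlinarith
    omega
  have hsb : s ≤ b := by rw [← h3]; exact Nat.le_mul_of_pos_left s hm0
  have e1 : a = p ^ g := le_antisymm (h4.trans (hsb.trans hb)) h5
  have e2 : s = p ^ g := le_antisymm (hsb.trans hb) (h5.trans h4)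
  have e3 : b = p ^ g := le_antisymm hb (by rw [← e2]; exact hsb)
  refine ⟨?_, e1, e2⟩
  have hm1 : m = 1 := by
    rw [e2, e3] at h3
    exact Nat.eq_of_mul_eq_mul_right hpg (by rw [h3, one_mul])
  exact le_antisymm (Subgroup.relIndex_eq_one.1 hm1) hle

/-- DUALITY -/
theorem du (hp : p.Prime) (hp3 : p ≠ 2) (hζ : IsPrimitiveRoot ζ p) (D : RD0 K p ζ) {lam : Pl K → ZMod p}
    (hlam : IsRec p ζ lam) (hone : ∀ v, D.Gd v → lam v = 1) {b : Kˣ}
    (h : ∀ u, TUnit D.S0 u → PP D lam b u = 0) : ∃ u, TUnit D.S0 u ∧ PS p ζ D.S0 (b * u) := by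
  have h1 : b ∈ orth D lam := h
  rw [(du_all hp hp3 hζ D hlam hone).1, Subgroup.mem_sup] at h1
  obtain ⟨u, hu, c, hc, rfl⟩ := h1
  refine ⟨u⁻¹, (UT D.S0).inv_mem hu, ?_⟩
  rw [mul_comm, inv_mul_cancel_left]
  exact hc

/-- the converse -/
theorem du_conv (hp : p.Prime) (hζ : IsPrimitiveRoot ζ p) (D : RD0 K p ζ) {lam : Pl K → ZMod p}
    (hlam : IsRec p ζ lam) {b u : Kˣ} (hu : TUnit D.S0 u) (h : PS p ζ D.S0 (b * u)) {u' : Kˣ} (hu' : TUnit D.S0 u') :
    PP D lam b u' = 0 := by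
  have h1 := PP_ps hp hζ D hlam h hu'
  rwa [PP_mul_left, PP_unit_left D lam hu, add_zero] at h1

/-- (du1) -/
theorem du1 (hp : p.Prime) (hp3 : p ≠ 2) (hζ : IsPrimitiveRoot ζ p) (D : RD0 K p ζ) {w w' : Pl K} (hw : D.Gd w)
    (hw' : D.Gd w') (h : ∀ u, TUnit D.S0 u → D.LL w u = D.LL w' u) :
    ∃ u, TUnit D.S0 u ∧ PS p ζ D.S0 (D.pi w * (D.pi w')⁻¹ * u) := by
  obtain ⟨lam, hlam, hone⟩ := exists_rec_one K hp (mone_odd hp hp3 K) hζ
  have hone' : ∀ v, D.Gd v → lam v = 1 := fun v hv => hone v (fun h => hv.1 (D.above v h)) hv.2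
  refine du hp hp3 hζ D hlam hone' fun u hu => ?_
  rw [PP_mul_left, PP_inv_left, PP_pi D hone' hw, PP_pi D hone' hw', h u hu]
  ring

/-- (du3) the order of `U / U^p` -/
theorem du3 (hp : p.Prime) (hp3 : p ≠ 2) (hζ : IsPrimitiveRoot ζ p) (D : RD0 K p ζ) :
    Nat.card (UT D.S0 ⧸ (powMonoidHom p : UT D.S0 →* UT D.S0).range) =
      p ^ (D.S0.card + Module.finrank ℚ K / 2) := by
  obtain ⟨lam, hlam, hone⟩ := exists_rec_one K hp (mone_odd hp hp3 K) hζ
  have hone' : ∀ v, D.Gd v → lam v = 1 := fun v hv => hone v (fun h => hv.1 (D.above v h)) hv.2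
  have h1 := (du_all hp hp3 hζ D hlam hone').2.1
  have h2 := deg_eq hp hp3 hζ
  have h3 : Module.finrank ℚ K / 2 = NumberField.Units.rank K + 1 := by omega
  rw [h3, ← add_assoc]
  exact h1

end H55.DU
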