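import Pool.Agent.H63.MA.SUnit
import Pool.Agent.H63.MA.RMkA
import Pool.Agent.H55.DU.LocB

/-!
# MALLE ALL CLASSES (MP_b39724), chapter DU: the `S`-units modulo `p`-th powers
-/

set_option autoImplicit false

open scoped NumberField
open IsDedekindDomain

noncomputable section

namespace H55.DU

open H63.MA

/-- finitely generated abelian groups with an element of order `p` -/
theorem unt_gen {U : Type} [CommGroup U] [Module.Finite ℤ (Additive U)] {p : ℕ} (hp : p.Prime) (z : U)
    (hz1 : z ≠ 1) (hzp : z ^ p = 1) (hfin : (powMonoidHom p : U →* U).range.index ≠ 0) :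
    p ^ (Module.finrank ℤ (Additive U) + 1) ≤ (powMonoidHom p : U →* U).range.index := by
  classical
  have : NeZero p := ⟨hp.ne_zero⟩
  have : Fact p.Prime := ⟨hp⟩
  have hfg : AddGroup.FG (Additive U) := Module.Finite.iff_addGroup_fg.1 inferInstance
  obtain ⟨n, ι, hι, q, hq, e, ⟨E⟩⟩ := AddCommGroup.equiv_free_prod_directSum_zmod (Additive U)
  obtain ⟨T, hT1, hTE⟩ : ∃ T : Type, ∃ _ : AddCommGroup T, ∃ _ : Finite T,
      Nonempty (Additive U ≃+ (Fin n →₀ ℤ) × T) := by
    have : ∀ i : ι, NeZero (q i ^ e i) := fun i => ⟨pow_ne_zero _ (hq i).ne_zero⟩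
    have hf : Finite (DirectSum ι fun i => ZMod (q i ^ e i)) :=
      Finite.of_equiv _ DFinsupp.equivFunOnFintype.symm
    exact ⟨DirectSum ι fun i => ZMod (q i ^ e i), inferInstance, hf, ⟨E⟩⟩
  obtain ⟨hT2, ⟨E'⟩⟩ := hTE
  -- the rank
  have hrank : Module.finrank ℤ (Additive U) = n := by
    let f : Additive U →ₗ[ℤ] (Fin n →₀ ℤ) := (LinearMap.fst ℤ (Fin n →₀ ℤ) T) ∘ₗ E'.toIntLinearEquiv.toLinearMap
    have hf : Function.Surjective f := by
      intro a
      obtain ⟨x, hx⟩ := E'.surjective (a, 0)
      exact ⟨x, by show (E' x).1 = a; rw [hx]⟩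
    have h1 := (f.quotKerEquivOfSurjective hf).finrank_eq
    have h2 : LinearMap.ker f ≤ Submodule.torsion ℤ (Additive U) := by
      intro x hx
      have hx0 : (E' x).1 = 0 := hx
      refine ⟨⟨(Nat.card T : ℤ), by
        rw [mem_nonZeroDivisors_iff_ne_zero]
        exact_mod_cast Nat.card_pos.ne'⟩, ?_⟩
      apply E'.injective
      show E' ((Nat.card T : ℤ) • x) = E' 0
      rw [map_zsmul, map_zero]
      apply Prod.ext
      · rw [Prod.smul_fst, hx0, smul_zero]; rfl
      · rw [Prod.smul_snd, natCast_zsmul, card_nsmul_eq_zero']; rfl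
    rw [finrank_quotient_eq_of_le_torsion h2] at h1
    rw [h1, Module.finrank_finsupp_self, Fintype.card_fin]
  rw [hrank]
  -- the map
  let A := Multiplicative T
  let φ : U →* (Multiplicative (Fin n → ZMod p)) × (A ⧸ (powMonoidHom p : A →* A).range) :=
    { toFun := fun u => (Multiplicative.ofAdd (fun i => (((E' (Additive.ofMul u)).1 i : ℤ) : ZMod p)),
        QuotientGroup.mk (Multiplicative.ofAdd (E' (Additive.ofMul u)).2))
      map_one' := by
        rw [ofMul_one, map_zero]
        apply Prod.ext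
        · show Multiplicative.ofAdd (fun i => (((0 : Fin n →₀ ℤ) i : ℤ) : ZMod p)) = 1
          simp only [Finsupp.coe_zero, Pi.zero_apply, Int.cast_zero]
          rfl
        · rfl
      map_mul' := by
        intro u w
        rw [ofMul_mul, map_add]
        apply Prod.ext
        · show Multiplicative.ofAdd (fun i => ((((E' (Additive.ofMul u)).1 + (E' (Additive.ofMul w)).1) i : ℤ) : ZMod p)) = _
          simp only [Finsupp.coe_add, Pi.add_apply, Int.cast_add]
          rfl
        · rfl }
  have hφ : Function.Surjective φ := by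
    rintro ⟨a, t⟩
    obtain ⟨t', rfl⟩ := QuotientGroup.mk_surjective t
    obtain ⟨x, hx⟩ := E'.surjective (Finsupp.equivFunOnFinite.symm fun i => ((Multiplicative.toAdd a i).val : ℤ),
      Multiplicative.toAdd t')
    refine ⟨Additive.toMul x, ?_⟩
    apply Prod.ext
    · show Multiplicative.ofAdd (fun i => (((E' x).1 i : ℤ) : ZMod p)) = a
      rw [hx]
      apply Multiplicative.toAdd.injective
      funext i
      show ((((Multiplicative.toAdd a i).val : ℤ)) : ZMod p) = Multiplicative.toAdd a i
      rw [Int.cast_natCast, ZMod.natCast_zmod_val]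
    · show QuotientGroup.mk (Multiplicative.ofAdd (E' x).2) = _
      rw [hx]
      rfl
  have h1 : (powMonoidHom p : U →* U).range ≤ φ.ker := by
    rintro _ ⟨u, rfl⟩
    rw [MonoidHom.mem_ker]
    show φ (u ^ p) = 1
    rw [map_pow]
    apply Prod.ext
    · rw [Prod.pow_fst]
      apply Multiplicative.toAdd.injective
      rw [toAdd_pow]
      funext i
      show p • (Multiplicative.toAdd (φ u).1 i) = 0
      rw [nsmul_eq_mul, ZMod.natCast_self, zero_mul]
    · rw [Prod.pow_snd]
      obtain ⟨w, hw⟩ := QuotientGroup.mk_surjective (φ u).2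
      rw [← hw]
      show (QuotientGroup.mk (w ^ p) : A ⧸ (powMonoidHom p : A →* A).range) = 1
      rw [QuotientGroup.eq_one_iff]
      exact ⟨w, rfl⟩
  have h2 : φ.ker.index = p ^ n * Nat.card (powMonoidHom p : A →* A).ker := by
    rw [Subgroup.index_ker, MonoidHom.range_eq_top.2 hφ, Subgroup.card_top, Nat.card_prod, card_coker]
    congr 1
    show Nat.card (Fin n → ZMod p) = p ^ n
    rw [Nat.card_pi, Finset.prod_const, Nat.card_zmod, Finset.card_univ, Fintype.card_fin]
  have h3 : φ.ker.index ≤ (powMonoidHom p : U →* U).range.index :=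
    Nat.le_of_dvd (Nat.pos_of_ne_zero hfin) (Subgroup.index_dvd_of_le h1)
  refine le_trans ?_ h3
  rw [h2, pow_succ]
  apply Nat.mul_le_mul_left
  -- an element of order `p` in `T`
  have h4 : p • E' (Additive.ofMul z) = 0 := by
    rw [← map_nsmul, ← ofMul_pow, hzp, ofMul_one, map_zero]
  have h5 : (E' (Additive.ofMul z)).1 = 0 := by
    have h6 : p • (E' (Additive.ofMul z)).1 = 0 := congrArg Prod.fst h4
    rcases smul_eq_zero.1 h6 with h7 | h7
    · exact absurd h7 hp.ne_zero
    · exact h7
  set t : A := Multiplicative.ofAdd (E' (Additive.ofMul z)).2 with ht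
  have ht1 : t ≠ 1 := by
    intro h
    apply hz1
    have h6 : (E' (Additive.ofMul z)).2 = 0 := h
    have h7 : E' (Additive.ofMul z) = 0 := Prod.ext h5 h6
    exact (map_eq_zero_iff E' E'.injective).1 h7
  have htp : t ^ p = 1 := congrArg Prod.snd h4
  have hord : orderOf (⟨t, htp⟩ : (powMonoidHom p : A →* A).ker) = p := by
    apply orderOf_eq_prime
    · exact Subtype.ext htp
    · intro h
      exact ht1 (congrArg Subtype.val h)
  have h8 := orderOf_dvd_natCard (⟨t, htp⟩ : (powMonoidHom p : A →* A).ker)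
  rw [hord] at h8
  exact Nat.le_of_dvd Nat.card_pos h8

variable {K : Type} [Field K] [NumberField K] {p : ℕ} {ζ : K}

/-- the degree of `K` -/
theorem deg_eq (hp : p.Prime) (hp3 : p ≠ 2) (hζ : IsPrimitiveRoot ζ p) :
    Module.finrank ℚ K = 2 * (NumberField.Units.rank K + 1) := by
  have h2 : 2 < p := lt_of_le_of_ne hp.two_le (Ne.symm hp3)
  have h3 := NumberField.InfinitePlace.card_add_two_mul_card_eq_rank K
  have h4 := NumberField.InfinitePlace.IsPrimitiveRoot.nrRealPlaces_eq_zero_of_two_lt h2 hζ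
  have h5 := NumberField.InfinitePlace.card_eq_nrRealPlaces_add_nrComplexPlaces K
  have h6 : 0 < Fintype.card (NumberField.InfinitePlace K) := Fintype.card_pos
  have h7 : NumberField.Units.rank K = Fintype.card (NumberField.InfinitePlace K) - 1 := rfl
  omega

/-- `g = #S + rank + 1` -/
theorem unt_index (hp : p.Prime) (hζ : IsPrimitiveRoot ζ p) (S0 : Finset (Pl K))
    (hfin : (powMonoidHom p : UT S0 →* UT S0).range.index ≠ 0) :
    p ^ (NumberField.Units.rank K + S0.card + 1) ≤ (powMonoidHom p : UT S0 →* UT S0).range.index := by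
  have hmf := ut_finite S0
  have hζ0 : ζ ≠ 0 := hζ.ne_zero hp.ne_zero
  have hmem : Units.mk0 ζ hζ0 ∈ UT S0 := by
    rw [mem_UT]
    intro v _
    rw [ord_eq_zero_iff]
    exact symb_zeta_val hp hζ
  have h1 := unt_gen hp (U := UT S0) ⟨Units.mk0 ζ hζ0, hmem⟩ (by
    intro h
    have h2 : Units.mk0 ζ hζ0 = 1 := congrArg Subtype.val h
    have h3 : ζ = 1 := congrArg Units.val h2
    exact hζ.ne_one hp.one_lt h3) (by
    apply Subtype.ext
    apply Units.ext
    show (Units.mk0 ζ hζ0 ^ p : Kˣ).val = 1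
    rw [Units.val_pow_eq_pow_val]
    exact hζ.pow_eq_one) hfin
  rwa [ut_rank S0] at h1

end H55.DU
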