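import Pool.Agent.H55.DU.Glo
import Pool.Agent.H55.DU.Unt
import Pool.Agent.H63.MA.RMkC

/-!
# MALLE ALL CLASSES (MP_b39724), chapter DU: the pairing
-/

set_option autoImplicit false

open scoped NumberField
open IsDedekindDomain

noncomputable section

namespace H55.DU

open H63.MA

variable {K : Type} [Field K] [NumberField K] {p : ℕ} {ζ : K}

open Classical in
/-- the pairing -/
def PP (D : RD0 K p ζ) (lam : Pl K → ZMod p) (b u : Kˣ) : ZMod p :=
  ∑ᶠ v, (if v ∈ D.S0 then 0 else lam v * (ord v b : ZMod p) * D.LL v u)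

open Classical in
theorem PP_supp (D : RD0 K p ζ) (lam : Pl K → ZMod p) (b u : Kˣ) :
    (Function.support fun v => (if v ∈ D.S0 then 0 else lam v * (ord v b : ZMod p) * D.LL v u)).Finite := by
  refine (finite_ord b).subset fun v hv => ?_
  rw [Function.mem_support] at hv
  intro h0
  apply hv
  rw [h0]
  split_ifs
  · rfl
  · rw [Int.cast_zero, mul_zero, zero_mul]

theorem PP_mul_left (D : RD0 K p ζ) (lam : Pl K → ZMod p) (b b' u : Kˣ) :
    PP D lam (b * b') u = PP D lam b u + PP D lam b' u := by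
  classical
  unfold PP
  rw [← finsum_add_distrib (PP_supp D lam b u) (PP_supp D lam b' u)]
  refine finsum_congr fun v => ?_
  split_ifs
  · rw [add_zero]
  · rw [ord_mul]; push_cast; ring

theorem PP_mul_right (hp : p.Prime) (hζ : IsPrimitiveRoot ζ p) (D : RD0 K p ζ) (lam : Pl K → ZMod p) (b u u' : Kˣ) :
    PP D lam b (u * u') = PP D lam b u + PP D lam b u' := by
  classical
  unfold PP
  rw [← finsum_add_distrib (PP_supp D lam b u) (PP_supp D lam b u')]
  refine finsum_congr fun v => ?_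
  split_ifs with h
  · rw [add_zero]
  · rw [LL_mul hp hζ D h]; ring

theorem PP_one_left (D : RD0 K p ζ) (lam : Pl K → ZMod p) (u : Kˣ) : PP D lam 1 u = 0 := by
  have h := PP_mul_left D lam 1 1 u
  rw [mul_one] at h
  exact left_eq_add.1 h

theorem PP_one_right (hp : p.Prime) (hζ : IsPrimitiveRoot ζ p) (D : RD0 K p ζ) (lam : Pl K → ZMod p) (b : Kˣ) :
    PP D lam b 1 = 0 := by
  have h := PP_mul_right hp hζ D lam b 1 1
  rw [mul_one] at h
  exact left_eq_add.1 h

theorem PP_inv_left (D : RD0 K p ζ) (lam : Pl K → ZMod p) (b u : Kˣ) :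
    PP D lam b⁻¹ u = - PP D lam b u := by
  have h := PP_mul_left D lam b b⁻¹ u
  rw [mul_inv_cancel, PP_one_left] at h
  exact (neg_eq_of_add_eq_zero_right h.symm).symm

theorem PP_inv_right (hp : p.Prime) (hζ : IsPrimitiveRoot ζ p) (D : RD0 K p ζ) (lam : Pl K → ZMod p) (b u : Kˣ) :
    PP D lam b u⁻¹ = - PP D lam b u := by
  have h := PP_mul_right hp hζ D lam b u u⁻¹
  rw [mul_inv_cancel, PP_one_right hp hζ] at h
  exact (neg_eq_of_add_eq_zero_right h.symm).symm

theorem PP_unit_left (D : RD0 K p ζ) (lam : Pl K → ZMod p) {b : Kˣ} (hb : TUnit D.S0 b) (u : Kˣ) :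
    PP D lam b u = 0 := by
  classical
  have h1 : ∀ v, (if v ∈ D.S0 then 0 else lam v * (ord v b : ZMod p) * D.LL v u) = 0 := by
    intro v
    split_ifs with h
    · rfl
    · rw [hb v h, Int.cast_zero, mul_zero, zero_mul]
  unfold PP
  rw [finsum_congr h1, finsum_zero]

theorem PP_ps (hp : p.Prime) (hζ : IsPrimitiveRoot ζ p) (D : RD0 K p ζ) {lam : Pl K → ZMod p}
    (hlam : IsRec p ζ lam) {b : Kˣ} (hb : PS p ζ D.S0 b) {u : Kˣ} (hu : TUnit D.S0 u) : PP D lam b u = 0 := by
  classical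
  have h1 := hlam.sum b hb.1 u
  have h2 : ∀ v, lam v * B p ζ v b u =
      -(if v ∈ D.S0 then 0 else lam v * (ord v b : ZMod p) * D.LL v u) := by
    intro v
    by_cases hv : v ∈ D.S0
    · rw [if_pos hv, neg_zero]
      by_cases ha : Above p v
      · rw [hlam.above v ha, zero_mul]
      · rw [hb.2 v hv ha u, mul_zero]
    · rw [if_neg hv, B_eq hp hζ D hv, hu v hv, Int.cast_zero, mul_zero]
      ring
  rw [finsum_congr h2, finsum_neg_distrib] at h1
  exact neg_eq_zero.1 h1

theorem PP_pi (D : RD0 K p ζ) {lam : Pl K → ZMod p} (hone : ∀ v, D.Gd v → lam v = 1) {w : Pl K} (hw : D.Gd w)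
    (u : Kˣ) : PP D lam (D.pi w) u = D.LL w u := by
  classical
  unfold PP
  rw [finsum_eq_single _ w, if_neg hw.1, hone w hw, D.pi_self w hw.1, Int.cast_one, one_mul, one_mul]
  intro v hv
  split_ifs with h
  · rfl
  · rw [D.pi_ne w v hw.1 h hv, Int.cast_zero, mul_zero, zero_mul]

/-- nondegenerate on the right -/
theorem PP_non (hp : p.Prime) (hζ : IsPrimitiveRoot ζ p) (D : RD0 K p ζ) {lam : Pl K → ZMod p}
    (hone : ∀ v, D.Gd v → lam v = 1) {u : Kˣ} (h : ∀ b, PP D lam b u = 0) : IsPow p u := by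
  by_contra hn
  obtain ⟨v, hv, -, -, hv2⟩ := rmkC_non hp hζ D u hn ∅
  apply hv2
  rw [← PP_pi D hone hv]
  exact h _

/-- the orthogonal complement of the units -/
def orth (D : RD0 K p ζ) (lam : Pl K → ZMod p) : Subgroup Kˣ where
  carrier := {b | ∀ u, TUnit D.S0 u → PP D lam b u = 0}
  mul_mem' := by
    intro a b ha hb u hu
    rw [PP_mul_left, ha u hu, hb u hu, add_zero]
  one_mem' := fun u _ => PP_one_left D lam u
  inv_mem' := by
    intro a ha u hu
    rw [PP_inv_left, ha u hu, neg_zero]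

/-- functionals on a finite elementary abelian group -/
theorem card_dual0 {p : ℕ} [Fact p.Prime] {Y : Type} [AddCommGroup Y] [Module (ZMod p) Y] [Finite Y] :
    Finite (Y →+ ZMod p) ∧ Nat.card (Y →+ ZMod p) ≤ Nat.card Y := by
  have hfm : Module.Finite (ZMod p) Y := Module.Finite.of_finite
  have hfd : Finite (Y →ₗ[ZMod p] ZMod p) := Finite.of_injective (fun f => (f : Y → ZMod p)) DFunLike.coe_injective
  have hinj : Function.Injective (fun f : Y →+ ZMod p => (f.toZModLinearMap p : Y →ₗ[ZMod p] ZMod p)) := by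
    intro f g hfg
    ext y
    exact LinearMap.congr_fun hfg y
  refine ⟨Finite.of_injective _ hinj, (Nat.card_le_card_of_injective _ hinj).trans ?_⟩
  have h1 := Module.natCard_eq_pow_finrank (K := ZMod p) (V := Module.Dual (ZMod p) Y)
  rw [Subspace.dual_finrank_eq, ← Module.natCard_eq_pow_finrank (K := ZMod p) (V := Y)] at h1
  exact le_of_eq h1

theorem card_dual (hp : p.Prime) {Y : Type} [AddCommGroup Y] [Finite Y] (hY : ∀ y : Y, p • y = 0) :
    Finite (Y →+ ZMod p) ∧ Nat.card (Y →+ ZMod p) ≤ Nat.card Y := by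
  have : Fact p.Prime := ⟨hp⟩
  let _ : Module (ZMod p) Y := AddCommGroup.zmodModule hY
  exact card_dual0

end H55.DU
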