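import Pool.Agent.H55.DU.Main

/-!
# MALLE ALL CLASSES (MP_b39724), chapter DU: the condition `pi w * b * u ∈ PS`

`du2`: for fixed `b` there is an additive `c` on the units such that for good `w`: `pi w * b` is a unit times an element of
`PS` iff `LL w u = c u` for all units `u`. `du2q`: this holds if `q w = - ∑ ord v b • q v`.
-/

set_option autoImplicit false

open scoped NumberField
open IsDedekindDomain

noncomputable section

namespace H55.DU

open H63.MA

variable {K : Type} [Field K] [NumberField K] {p : ℕ} {ζ : K}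

/-- (du2) -/
theorem du2 (hp : p.Prime) (hp3 : p ≠ 2) (hζ : IsPrimitiveRoot ζ p) (D : RD0 K p ζ) (b : Kˣ) :
    ∃ c : Kˣ → ZMod p, (∀ u u', c (u * u') = c u + c u') ∧
      ∀ w, D.Gd w → ((∃ u, TUnit D.S0 u ∧ PS p ζ D.S0 (D.pi w * b * u)) ↔
        ∀ u, TUnit D.S0 u → D.LL w u = c u) := by
  obtain ⟨lam, hlam, hone⟩ := exists_rec_one K hp (mone_odd hp hp3 K) hζ
  have hone' : ∀ v, D.Gd v → lam v = 1 := fun v hv => hone v (fun h => hv.1 (D.above v h)) hv.2
  refine ⟨fun u => - PP D lam b u, fun u u' => by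
    show -PP D lam b (u * u') = -PP D lam b u + -PP D lam b u'
    rw [PP_mul_right hp hζ, neg_add], fun w hw => ⟨?_, fun h => ?_⟩⟩
  · rintro ⟨u, hu, h⟩ u' hu'
    have h1 := du_conv hp hζ D hlam hu h hu'
    rw [PP_mul_left, PP_pi D hone' hw] at h1
    exact eq_neg_of_add_eq_zero_left h1
  · refine du hp hp3 hζ D hlam hone' fun u hu => ?_
    have h1 : D.LL w u = -PP D lam b u := h u hu
    rw [PP_mul_left, PP_pi D hone' hw, h1, neg_add_cancel]

open Classical in
/-- an element is a unit times a product of the `pi v` -/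
theorem fac (D : RD0 K p ζ) (x : Kˣ) : ∃ (m : Pl K →₀ ℤ) (u : Kˣ), (∀ v, m v = if v ∈ D.S0 then 0 else ord v x) ∧
    TUnit D.S0 u ∧ x * u = m.prod fun v n => D.pi v ^ n := by
  obtain ⟨m, hm⟩ : ∃ m : Pl K →₀ ℤ, ∀ v, m v = if v ∈ D.S0 then 0 else ord v x := by
    refine ⟨Finsupp.ofSupportFinite (fun v => if v ∈ D.S0 then 0 else ord v x) ?_, fun v => rfl⟩
    refine (finite_ord x).subset ?_
    intro v hv
    rw [Function.mem_support] at hv
    intro h0
    apply hv
    split_ifs
    · rfl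
    · exact h0
  refine ⟨m, x⁻¹ * m.prod fun v n => D.pi v ^ n, hm, ?_, by rw [mul_inv_cancel_left]⟩
  intro v hv
  rw [ord_mul, ord_inv, rmkC_ord D m (fun w hw => by rw [hm, if_pos hw]) hv, hm, if_neg hv, neg_add_cancel]

open Classical in
/-- classes and `PS` -/
theorem ps_of_q (D : RD0 K p ζ) {x : Kˣ}
    (h : ∑ᶠ v, (if v ∈ D.S0 then 0 else (ord v x : ZMod p) • D.q v) = 0) :
    ∃ u, TUnit D.S0 u ∧ PS p ζ D.S0 (x * u) := by
  obtain ⟨m, u, hm, hu, hx⟩ := fac D x
  refine ⟨u, hu, ?_⟩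
  rw [hx]
  refine D.prim_of m (fun v hv => by rw [hm, if_pos hv]) ?_
  rw [← h, Finsupp.sum]
  symm
  rw [finsum_eq_sum_of_support_subset (s := m.support)]
  · refine Finset.sum_congr rfl fun v hv => ?_
    rw [Finsupp.mem_support_iff, hm] at hv
    rw [hm]
    split_ifs with h1
    · rw [if_pos h1] at hv; exact absurd rfl hv
    · rfl
  · intro v hv
    rw [Function.mem_support] at hv
    rw [Finset.mem_coe, Finsupp.mem_support_iff, hm]
    intro h0
    apply hv
    split_ifs at h0 ⊢ with h1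
    · rfl
    · rw [h0, Int.cast_zero, zero_smul]

open Classical in
/-- good primes in the class opposite to `b` satisfy the condition of `du2` -/
theorem du2q (D : RD0 K p ζ) (b : Kˣ) {w : Pl K} (hw : D.Gd w)
    (h : D.q w = - ∑ᶠ v, (if v ∈ D.S0 then 0 else (ord v b : ZMod p) • D.q v)) :
    ∃ u, TUnit D.S0 u ∧ PS p ζ D.S0 (D.pi w * b * u) := by
  apply ps_of_q D
  have hs : ∀ y : Kˣ, (Function.support fun v => (if v ∈ D.S0 then 0 else (ord v y : ZMod p) • D.q v)).Finite := by
    intro y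
    refine (finite_ord y).subset fun v hv => ?_
    rw [Function.mem_support] at hv
    intro h0
    apply hv
    rw [h0]
    split_ifs
    · rfl
    · rw [Int.cast_zero, zero_smul]
  have h1 : ∑ᶠ v, (if v ∈ D.S0 then 0 else (ord v (D.pi w * b) : ZMod p) • D.q v) =
      ∑ᶠ v, (if v ∈ D.S0 then 0 else (ord v (D.pi w) : ZMod p) • D.q v) +
      ∑ᶠ v, (if v ∈ D.S0 then 0 else (ord v b : ZMod p) • D.q v) := by
    rw [← finsum_add_distrib (hs _) (hs _)]
    refine finsum_congr fun v => ?_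
    split_ifs
    · rw [add_zero]
    · rw [ord_mul, Int.cast_add, add_smul]
  have h2 : ∑ᶠ v, (if v ∈ D.S0 then 0 else (ord v (D.pi w) : ZMod p) • D.q v) = D.q w := by
    rw [finsum_eq_single _ w, if_neg hw.1, D.pi_self w hw.1, Int.cast_one, one_smul]
    intro v hv
    split_ifs with h3
    · rfl
    · rw [D.pi_ne w v hw.1 h3 hv, Int.cast_zero, zero_smul]
  rw [h1, h2, h, neg_add_cancel]

end H55.DU
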